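import Pool.Agent.Y996.PW.Pull
import Pool.Agent.Helper292.ForceCH

/-!
The strongest Borel omega-cover selection property `S₁(B_Ω, B_Γ)` does not give the weakest one,
`S_fin(B_Γ, B)`, in any finite power with exponent at least two.
-/

namespace Pool.Agent.Results.MP_c8e566_gt.AllPowersFail

open Pool.Agent.Helper185.Sel

theorem under_ch : Cardinal.aleph 1 = Cardinal.continuum.{0} →
    ∃ X : Set ℝ,
      S1 (OmegaOf (BorelFam X)) (GammaOf (BorelFam X)) ∧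
      (∀ k : ℕ, 2 ≤ k →
        ¬ Sfin (GammaOf (BorelFam (Fin k → X))) (CovOf (BorelFam (Fin k → X)))) ∧
      ∃ Y : Set ℝ, Y ⊆ X ∧ ¬ Sfin (OmegaOf (BorelFam Y)) (OmegaOf (BorelFam Y)) := by
  intro hCH
  obtain ⟨X, Y, hYX, h1, h2, h3⟩ := Pool.Agent.Helper185.Silver.exists_real hCH
  exact ⟨X, h1, Pool.Agent.Y996.PW.powers h2, Y, hYX, h3⟩

theorem result :
    (∃ (P : Type) (_ : Preorder P), Nonempty P ∧ ∀ p : P,
      p ∈ Pool.Agent.Helper292.ForceCH.OmegaOnePreserved P ∧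
      p ∈ Pool.Agent.Helper292.ForceCH.CHHolds P) ∧
    (Cardinal.aleph 1 = Cardinal.continuum.{0} →
    ∃ X : Set ℝ,
      S1 (OmegaOf (BorelFam X)) (GammaOf (BorelFam X)) ∧
      (∀ k : ℕ, 2 ≤ k →
        ¬ Sfin (GammaOf (BorelFam (Fin k → X))) (CovOf (BorelFam (Fin k → X)))) ∧
      ∃ Y : Set ℝ, Y ⊆ X ∧ ¬ Sfin (OmegaOf (BorelFam Y)) (OmegaOf (BorelFam Y))) := by
  refine ⟨?_, under_ch⟩
  obtain ⟨P, i, h1, h2⟩ := Pool.Agent.Helper292.ForceCH.exists_forcing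
  exact ⟨P, i, h1, fun p => ⟨(h2 p).1, (h2 p).2.2⟩⟩

end Pool.Agent.Results.MP_c8e566_gt.AllPowersFail
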